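import Pool.Agent.Lib.MP_a619ca_an.Lower

/-!
A lower bound for the minimal Riesz 2-energy of `N` points of the unit sphere, valid for all `N`,
whose second-order constant `γ / 2 - 3 / 8` is within `0.0007` of the conjectured one.
-/

namespace Pool.Agent.Results.MP_a619ca_an.LowerBound

theorem result (N : ℕ) (hN : 1 ≤ N) :
    (1 / 4 : ℝ) * (N : ℝ) ^ 2 * Real.log (N : ℝ)
        + (Real.eulerMascheroniConstant / 2 - 3 / 8) * (N : ℝ) ^ 2 - 2 * (N : ℝ) ≤
      sInf {e : ℝ | ∃ x : Fin N → EuclideanSpace ℝ (Fin 3),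
              Function.Injective x ∧ (∀ i, ‖x i‖ = 1) ∧
              e = ∑ i, ∑ j ∈ Finset.univ.erase i, (‖x i - x j‖ ^ 2)⁻¹} :=
  Pool.Agent.Lib.MP_a619ca_an.lower hN

end Pool.Agent.Results.MP_a619ca_an.LowerBound
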