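import Pool.Agent.Lib.MP_a619ca_an.RateMain

/-!
The minimal Riesz 2-energy of `N` points of the unit sphere of `ℝ³` equals
`N ^ 2 log N / 4 + C N ^ 2`, with the constant `C` conjectured by Brauchart, Hardin and Saff, up to
an error between `-K N ^ (5 / 3) log N` and `K N ^ (31 / 16)`.
-/

open Filter Topology Asymptotics HurwitzZeta

namespace Pool.Agent.Results.MP_a619ca_an.SharpRate

theorem result :
    ∃ c₁ c₂ d₁ d₂ : ℝ,
      (fun s : ℂ => hurwitzZeta ((1 / 3 : ℝ) : UnitAddCircle) s - 1 / (s - 1)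
          - (c₁ : ℂ) - (d₁ : ℂ) * (1 - s)) =o[𝓝[≠] (1 : ℂ)] (fun s : ℂ => s - 1) ∧
      (fun s : ℂ => hurwitzZeta ((2 / 3 : ℝ) : UnitAddCircle) s - 1 / (s - 1)
          - (c₂ : ℂ) - (d₂ : ℂ) * (1 - s)) =o[𝓝[≠] (1 : ℂ)] (fun s : ℂ => s - 1) ∧
      ∃ K : ℝ, ∀ N : ℕ, 2 ≤ N →
        -(K * ((N : ℝ) ^ (5 / 3 : ℝ) * Real.log (N : ℝ))) ≤
          sInf {e : ℝ | ∃ x : Fin N → EuclideanSpace ℝ (Fin 3),
                  Function.Injective x ∧ (∀ i, ‖x i‖ = 1) ∧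
                  e = ∑ i, ∑ j ∈ Finset.univ.erase i, (‖x i - x j‖ ^ 2)⁻¹}
            - 1 / 4 * (N : ℝ) ^ 2 * Real.log (N : ℝ)
            - (Real.sqrt 3 / (4 * Real.pi) * (d₂ - d₁) + Real.eulerMascheroniConstant / 4
                - 1 / 4 * Real.log (2 * Real.sqrt 3 * Real.pi)) * (N : ℝ) ^ 2 ∧
        sInf {e : ℝ | ∃ x : Fin N → EuclideanSpace ℝ (Fin 3),
                  Function.Injective x ∧ (∀ i, ‖x i‖ = 1) ∧
                  e = ∑ i, ∑ j ∈ Finset.univ.erase i, (‖x i - x j‖ ^ 2)⁻¹}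
            - 1 / 4 * (N : ℝ) ^ 2 * Real.log (N : ℝ)
            - (Real.sqrt 3 / (4 * Real.pi) * (d₂ - d₁) + Real.eulerMascheroniConstant / 4
                - 1 / 4 * Real.log (2 * Real.sqrt 3 * Real.pi)) * (N : ℝ) ^ 2
          ≤ K * (N : ℝ) ^ (31 / 16 : ℝ) :=
  Pool.Agent.Lib.MP_a619ca_an.Hx.sharp_rate

end Pool.Agent.Results.MP_a619ca_an.SharpRate
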